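import Pool.Agent.Y192.FN.Defs
import Pool.Agent.Y288.FG.Gm

/-!
# From bounded degrees to the multiplicative group, for covers of arbitrary closed subsets
-/

set_option autoImplicit false

namespace Pool.Agent.Y455.FN

open MvPolynomial FF Pool.Agent.W603.LV Pool.Agent.W603.PV Pool.Agent.Y192.FA Pool.Agent.Y192.FN
open Pool.Agent.Y288.FG (ev ev_ne poly_zero ge_sub ge_ev ge_ev0 ord_ev exists_pl pl_inj pht_ge
  exists_roots aeval_ev' eval_poly')

section curves

variable {n r : ℕ} {X : NDat n r} {m : ℕ} {p : Fin (n + 1) → Polynomial ℂ}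
  {s : Fin r → Polynomial ℂ}

theorem pord_eq (hne : ∀ z : ℂ, z ≠ 0 → ∃ i, (p i).eval z ≠ 0) {k : ℕ}
    {P : Place ℂ (RatFunc ℂ)} {z : ℂ}
    (hz : z ≠ 0) (hP : Ge P 1 ((RatFunc.X : RatFunc ℂ) - algebraMap ℂ (RatFunc ℂ) z)) :
    pord P (fun i => ev k (p i)) = 0 := by
  obtain ⟨i, hi⟩ := hne _ (pow_ne_zero k hz)
  obtain ⟨h1, h2⟩ := ord_ev hP k hi
  have h3 : pord P (fun i => ev k (p i)) ≤ P.ord (ev k (p i)) :=
    pord_le P (f := fun i => ev k (p i)) (j := i) h1
  obtain ⟨j, hj, h4⟩ := exists_pord P (f := fun i => ev k (p i)) ⟨i, h1⟩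
  have h5 := (ge_ev0 hP k (p j)).resolve_left hj
  change P.ord (ev k (p j)) = _ at h4
  omega

theorem nmap (h : NGm X m p s) {k : ℕ} (hk : 0 < k) :
    NMap X m zeroInf (fun i => ev k (p i)) (fun j => ev k (s j)) where
  ne := by
    obtain ⟨i, hi⟩ := h.ne 1 one_ne_zero
    refine ⟨i, ev_ne hk ?_⟩
    rintro h0
    rw [h0] at hi
    simp at hi
  sol := by
    refine ⟨fun f hf => ?_, fun j => ?_, ?_⟩
    · rw [aeval_ev']
      have h1 : aeval (fun i => p i ^ m) f = 0 := by
        refine poly_zero fun z hz => ?_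
        rw [eval_poly']
        have h2 := (h.sol z hz).mem f hf
        rwa [MvPolynomial.aeval_eq_eval] at h2
      rw [h1, map_zero]
    · rw [aeval_ev', ← map_pow]
      congr 1
      have h1 : s j ^ X.e j - aeval (fun i => p i ^ m) (X.F j) = 0 := by
        refine poly_zero fun z hz => ?_
        rw [Polynomial.eval_sub, Polynomial.eval_pow, eval_poly', sub_eq_zero]
        have h2 := (h.sol z hz).eqn j
        rwa [MvPolynomial.aeval_eq_eval] at h2
      exact sub_eq_zero.1 h1
    · rw [aeval_ev']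
      refine ev_ne hk ?_
      intro h0
      have h1 := (h.sol 1 one_ne_zero).G_ne
      rw [MvPolynomial.aeval_eq_eval] at h1
      apply h1
      change eval (fun i => (p i).eval 1 ^ m) X.G = 0
      rw [← eval_poly', h0, Polynomial.eval_zero]
  off := by
    intro P hP
    have hX : P.ord (RatFunc.X : RatFunc ℂ) = 0 := by
      by_contra hcon
      apply hP
      unfold zeroInf
      rw [Set.Finite.mem_toFinset]
      exact hcon
    obtain ⟨z, hz⟩ := exists_const P (f := (RatFunc.X : RatFunc ℂ)) (Or.inr hX.ge)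
    have hz0 : z ≠ 0 := by
      rintro rfl
      rw [map_zero, sub_zero] at hz
      rcases hz with hz | hz
      · exact RatFunc.X_ne_zero hz
      · omega
    rw [pord_eq h.ne hz0 hz, mul_zero, aeval_ev']
    refine (ord_ev hz k ?_).2
    rw [eval_poly']
    have h2 := (h.sol (z ^ k) (pow_ne_zero k hz0)).G_ne
    rwa [MvPolynomial.aeval_eq_eval] at h2

theorem pht_big (h : NGm X m p s) {k : ℕ} (hk : 0 < k) {z1 z2 : ℂ} (hz1 : z1 ≠ 0)
    {i l : Fin (n + 1)}
    (hne : (p i).eval z1 * (p l).eval z2 ≠ (p i).eval z2 * (p l).eval z1) :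
    (k : ℤ) ≤ pht ℂ (fun i => ev k (p i)) := by
  classical
  choose pl hpl using exists_pl
  obtain ⟨R, hR, hR'⟩ := exists_roots k hk z1 hz1
  set f : Polynomial ℂ := Polynomial.C ((p l).eval z1) * p i - Polynomial.C ((p i).eval z1) * p l
    with hf
  have hf1 : f.eval z1 = 0 := by
    rw [hf]
    simp only [Polynomial.eval_sub, Polynomial.eval_mul, Polynomial.eval_C]
    ring
  have hf2 : f.eval z2 ≠ 0 := by
    rw [hf]
    simp only [Polynomial.eval_sub, Polynomial.eval_mul, Polynomial.eval_C]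
    intro h0
    apply hne
    linear_combination -h0
  have hf0 : f ≠ 0 := by
    intro h0
    rw [h0] at hf2
    simp at hf2
  have hcard : (R.image pl).card = k := by
    rw [Finset.card_image_of_injective, hR]
    intro ζ ζ' hζ
    refine pl_inj (P := pl ζ) (hpl ζ) ?_
    rw [hζ]
    exact hpl ζ'
  have hu : ∃ i, (fun i => ev k (p i)) i ≠ 0 := (nmap h hk).ne
  have h1 := pht_ge (fun i => ev k (p i)) hu (ev k f) (ev_ne hk hf0) (by
    intro P
    have e : ev k f = algebraMap ℂ (RatFunc ℂ) ((p l).eval z1) * ev k (p i) -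
        algebraMap ℂ (RatFunc ℂ) ((p i).eval z1) * ev k (p l) := by
      rw [hf, map_sub, map_mul, map_mul]
      have e1 : ∀ c : ℂ, ev k (Polynomial.C c) = algebraMap ℂ (RatFunc ℂ) c := fun c =>
        (ev k).commutes c
      rw [e1, e1]
    rw [e]
    have h2 := (Ge.const (P := P) ((p l).eval z1)).mul (ge_pord P (fun i => ev k (p i)) i)
    have h3 := (Ge.const (P := P) ((p i).eval z1)).mul (ge_pord P (fun i => ev k (p i)) l)
    rw [zero_add] at h2 h3
    exact h2.sub h3) (R.image pl) (by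
    intro P hP
    obtain ⟨ζ, hζ, rfl⟩ := Finset.mem_image.1 hP
    have hζ0 : ζ ≠ 0 := by
      rintro rfl
      have := hR' 0 hζ
      rw [zero_pow hk.ne'] at this
      exact hz1 this.symm
    rw [pord_eq h.ne hζ0 (hpl ζ)]
    have h2 := ge_ev (hpl ζ) k f
    rw [hR' ζ hζ, hf1, map_zero, sub_zero] at h2
    have := h2.resolve_left (ev_ne hk hf0)
    omega)
  rw [hcard] at h1
  exact h1

end curves

theorem t_ngm : St_ngm := by
  intro n r X m hm he hE p s hps
  obtain ⟨b, hb⟩ := hE (RatFunc ℂ) zeroInf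
  obtain ⟨z1, z2, hz1, hz2, i, l, hil⟩ := hps.nonconst
  have hk : 0 < b.toNat + 1 := Nat.succ_pos _
  have h1 := hb _ _ (nmap hps hk)
  have h2 := pht_big hps hk hz1 (i := i) (l := l) (z2 := z2) (by
    intro h0
    apply hil
    rw [h0]
    ring)
  push_cast at h2
  omega

end Pool.Agent.Y455.FN
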